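import Pool.Agent.Helper74.UB.Goals2

/-! Packet UB-FIRECON. -/

namespace Pool.Agent.Helper5.UB

open Finset Equiv Helper28.VF Helper74.UB
open scoped Classical

theorem ad_symm {D V E F : Type} [Fintype D] [Fintype V] [Fintype E] [Fintype F]
    (M : PM D V E F) {u v : V} (h : Ad M u v) : Ad M v u := by
  obtain ⟨d, h1, h2⟩ := h
  refine ⟨M.α d, h2, ?_⟩
  unfold tg
  rw [M.α_inv]
  exact h1

theorem firecon : StmtFireCon := by
  intro D V E F _ _ _ _ M c v₀ A Q hF
  have hv0 : ∀ s, v₀ ∈ A s := by
    intro s
    induction s with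
    | zero => rw [hF.zero]; simp
    | succ s ih => exact hF.mono s ih
  have hnin : ∀ s t, ∀ v ∈ A s, v ∉ Q t := by
    intro s t v hv hq
    exact (Finset.disjoint_left.mp (hF.disj t s)) hq hv
  refine ⟨?_, ?_⟩
  · intro O s
    have key : ∀ s, Disjoint O (A s) → ∀ v ∈ A s, Rch M O v₀ v ∧ Rch M O v v₀ := by
      intro s
      induction s with
      | zero =>
        intro _ v hv
        rw [hF.zero, Finset.mem_singleton] at hv
        subst hv
        exact ⟨Relation.ReflTransGen.refl, Relation.ReflTransGen.refl⟩
      | succ s ih =>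
        intro hd v hv
        have hd' : Disjoint O (A s) := Disjoint.mono_right (hF.mono s) hd
        rcases hF.new s v hv with h | ⟨u, hu, had⟩
        · exact ih hd' v h
        · obtain ⟨h1, h2⟩ := ih hd' u hu
          have hvO : v ∉ O := fun h => (Finset.disjoint_left.mp hd) h hv
          have huO : u ∉ O := fun h => (Finset.disjoint_left.mp hd') h hu
          refine ⟨Relation.ReflTransGen.tail h1 ⟨had, hvO⟩, ?_⟩
          exact Relation.ReflTransGen.head ⟨ad_symm M had, huO⟩ h2
    intro hd u hu w hw
    exact Relation.ReflTransGen.trans (key s hd u hu).2 (key s hd w hw).1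
  · intro s
    induction s with
    | zero =>
      intro v hv
      rw [hF.zero, Finset.mem_singleton] at hv
      subst hv
      obtain ⟨w, hw, hne⟩ := hF.esc
      rcases hF.new 0 w hw with h | ⟨u, hu, had⟩
      · rw [hF.zero, Finset.mem_singleton] at h
        exact absurd h hne
      · rw [hF.zero, Finset.mem_singleton] at hu
        subst hu
        exact ⟨w, had, fun t => hnin 1 t w hw⟩
    | succ s ih =>
      intro v hv
      rcases hF.new s v hv with h | ⟨u, hu, had⟩
      · exact ih v h
      · exact ⟨u, ad_symm M had, fun t => hnin s t u hu⟩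

end Pool.Agent.Helper5.UB
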